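import Pool.Agent.W851.BE.Stm

/-!
Project BE, piece BE-LAU: Laurent constant on annuli, monomial pieces.
-/

set_option autoImplicit false

open Polynomial Topology Filter
open Pool.Agent.W95.BK Pool.Agent.W851.BE

set_option linter.unusedSectionVars false

namespace Pool.Agent.W639.BE.Lau

universe u

variable {K : Type u} [NontriviallyNormedField K] [IsUltrametricDist K]

theorem gn_mul (b : K) {t : ℝ} (ht : 0 < t) (f g : K[X]) :
    gn b t (f * g) = gn b t f * gn b t g :=
  (gauss b t ht).map_mul' f g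

theorem gn_add (b : K) {t : ℝ} (ht : 0 < t) (f g : K[X]) :
    gn b t (f + g) ≤ max (gn b t f) (gn b t g) :=
  (gauss b t ht).map_add' f g

theorem gn_C (b : K) {t : ℝ} (ht : 0 < t) (a : K) : gn b t (C a) = ‖a‖ :=
  (gauss b t ht).map_C' a

theorem gn_nonneg (b : K) {t : ℝ} (ht : 0 < t) (f : K[X]) : 0 ≤ gn b t f :=
  (gauss b t ht).nonneg' f

theorem gn_neg (b : K) {t : ℝ} (ht : 0 < t) (f : K[X]) : gn b t (-f) = gn b t f := by
  have h : -f = C (-1) * f := by rw [C_neg, C_1]; ring
  rw [h, gn_mul b ht, gn_C b ht, norm_neg, norm_one, one_mul]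

theorem gn_add_lt (b : K) {t : ℝ} (ht : 0 < t) (f g : K[X]) (h : gn b t f < gn b t g) :
    gn b t (f + g) = gn b t g := by
  apply le_antisymm
  · exact (gn_add b ht f g).trans (max_le h.le le_rfl)
  · have e : g = (f + g) + (-f) := by ring
    have h1 := gn_add b ht (f + g) (-f)
    rw [← e, gn_neg b ht] at h1
    rcases le_max_iff.1 h1 with h2 | h2
    · exact h2
    · exact absurd h2 (not_le.2 h)

theorem gn_add_eq (b : K) {t : ℝ} (ht : 0 < t) (f g : K[X]) (h : gn b t f ≠ gn b t g) :
    gn b t (f + g) = gn b t f ∨ gn b t (f + g) = gn b t g := by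
  rcases lt_or_gt_of_ne h with h | h
  · exact Or.inr (gn_add_lt b ht f g h)
  · left
    rw [add_comm]
    exact gn_add_lt b ht g f h

/-- product of linear factors -/
noncomputable def pr (M : Multiset K) : K[X] := (M.map (fun w => X - C w)).prod

theorem gn_pr (hG : S_GLAM.{u}) (b : K) {t : ℝ} (ht : 0 < t) (M : Multiset K) :
    gn b t (pr M) = (M.map (fun w => max ‖b - w‖ t)).prod := by
  induction M using Multiset.induction_on with
  | empty =>
    have h := gn_C b ht (1 : K)
    rw [C_1, norm_one] at h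
    simpa [pr] using h
  | cons a M ih =>
    have e : pr (a ::ₘ M) = (X - C a) * pr M := by simp [pr]
    have h1 : gn b t (X - C a) = max ‖b - a‖ t := (hG K b a).2 t ht
    rw [e, gn_mul b ht, ih, h1, Multiset.map_cons, Multiset.prod_cons]

theorem gn_pr_in (hG : S_GLAM.{u}) (b : K) {t : ℝ} (ht : 0 < t) (M : Multiset K)
    (h : ∀ w ∈ M, ‖b - w‖ ≤ t) : gn b t (pr M) = t ^ Multiset.card M := by
  rw [gn_pr hG b ht]
  rw [Multiset.map_congr rfl (g := fun _ => t) (fun w hw => max_eq_right (h w hw))]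
  rw [Multiset.map_const', Multiset.prod_replicate]

theorem gn_pr_out (hG : S_GLAM.{u}) (b : K) {t : ℝ} (ht : 0 < t) (M : Multiset K)
    (h : ∀ w ∈ M, t ≤ ‖b - w‖) : gn b t (pr M) = (M.map (fun w => ‖b - w‖)).prod := by
  rw [gn_pr hG b ht]
  rw [Multiset.map_congr rfl (g := fun w => ‖b - w‖) (fun w hw => max_eq_left (h w hw))]

theorem anti [IsAlgClosed K] (hN : S_NPOL.{u}) (b : K) (A : K[X]) (hA : A ≠ 0) (n : ℕ)
    (hn : A.natDegree < n) {s t : ℝ} (hs : 0 < s) (hst : s < t) :
    gn b t A * s ^ n < gn b s A * t ^ n := by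
  have ht := hs.trans hst
  obtain ⟨h1, -, h3, -⟩ := hN K A b t hA ht
  obtain ⟨-, h2, -⟩ := hN K A b s hA hs
  set i := nIn A {w | ‖w - b‖ < t} with hi
  have hc : (taylor b A).coeff i ≠ 0 := by
    intro h
    rw [h, norm_zero, zero_mul] at h3
    exact h1.ne h3
  have hin : i < n := by
    have := le_natDegree_of_ne_zero hc
    rw [natDegree_taylor] at this
    omega
  have hcp : 0 < ‖(taylor b A).coeff i‖ := norm_pos_iff.2 hc
  obtain ⟨k, hk, rfl⟩ : ∃ k, 0 < k ∧ n = i + k := ⟨n - i, by omega, by omega⟩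
  have hpow : s ^ k < t ^ k := pow_lt_pow_left₀ hst hs.le hk.ne'
  calc gn b t A * s ^ (i + k) = (‖(taylor b A).coeff i‖ * t ^ i * s ^ i) * s ^ k := by
        rw [← h3, pow_add]; ring
    _ < (‖(taylor b A).coeff i‖ * t ^ i * s ^ i) * t ^ k :=
        mul_lt_mul_of_pos_left hpow (by positivity)
    _ = (‖(taylor b A).coeff i‖ * s ^ i) * t ^ (i + k) := by rw [pow_add]; ring
    _ ≤ gn b s A * t ^ (i + k) := mul_le_mul_of_nonneg_right (h2 i) (by positivity)

theorem mono [IsAlgClosed K] (hN : S_NPOL.{u}) (b : K) (G : K[X]) (hG : G ≠ 0)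
    (h0 : G.eval b = 0) {s t : ℝ} (hs : 0 < s) (hst : s < t) :
    gn b s G < gn b t G := by
  have ht := hs.trans hst
  obtain ⟨h1, -, h3, -⟩ := hN K G b s hG hs
  obtain ⟨-, h2, -⟩ := hN K G b t hG ht
  set i := nIn G {w | ‖w - b‖ < s} with hi
  have hc : (taylor b G).coeff i ≠ 0 := by
    intro h
    rw [h, norm_zero, zero_mul] at h3
    exact h1.ne h3
  have hi0 : i ≠ 0 := by
    intro h
    rw [h, taylor_coeff_zero] at hc
    exact hc h0
  have hcp : 0 < ‖(taylor b G).coeff i‖ := norm_pos_iff.2 hc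
  rw [← h3]
  refine lt_of_lt_of_le ?_ (h2 i)
  exact mul_lt_mul_of_pos_left (pow_lt_pow_left₀ hst hs.le hi0) hcp

open Classical in
theorem mono_piece [IsAlgClosed K] (hN : S_NPOL.{u}) (b : K) (h : K[X]) (hh : h ≠ 0) {u v : ℝ}
    (hu : 0 ≤ u) (huv : u < v) (hB : ∀ w ∈ h.roots, ¬ (u < ‖w - b‖ ∧ ‖w - b‖ < v)) :
    ∃ (m : ℕ) (κ : ℝ), 0 < κ ∧ ∀ t, u < t → t < v → gn b t h = κ * t ^ m := by
  have key : ∀ t, u < t → t < v →
      nIn h {w | ‖w - b‖ < t} = nIn h {w | ‖w - b‖ ≤ u} := by
    intro t h1 h2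
    unfold nIn
    congr 1
    apply Multiset.filter_congr
    intro w hw
    change ‖w - b‖ < t ↔ ‖w - b‖ ≤ u
    constructor
    · intro h3
      by_contra h4
      exact hB w hw ⟨not_le.1 h4, h3.trans h2⟩
    · intro h3
      exact lt_of_le_of_lt h3 h1
  refine ⟨nIn h {w | ‖w - b‖ ≤ u}, ‖(taylor b h).coeff (nIn h {w | ‖w - b‖ ≤ u})‖, ?_, ?_⟩
  · rw [norm_pos_iff]
    intro h0
    have hm : u < (u + v) / 2 ∧ (u + v) / 2 < v := ⟨by linarith, by linarith⟩
    obtain ⟨h1, -, h3, -⟩ := hN K h b ((u + v) / 2) hh (by linarith)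
    rw [key _ hm.1 hm.2, h0, norm_zero, zero_mul] at h3
    exact h1.ne h3
  · intro t h1 h2
    obtain ⟨-, -, h3, -⟩ := hN K h b t hh (by linarith)
    rw [key t h1 h2] at h3
    exact h3.symm

/-- the splitting of the map relative to a decomposition of the denominator -/
theorem cut (P Qi Qo : K[X]) (b : K) (hc : IsCoprime Qi Qo) (hm : Qi.Monic)
    (hb : Qo.eval b ≠ 0) : ∃ (c : K) (A G : K[X]), A.degree < Qi.degree ∧ G.eval b = 0 ∧
      P - C c * (Qi * Qo) = A * Qo + G * Qi := by
  obtain ⟨s, r, hsr⟩ := hc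
  set B : K[X] := P * s + ((P * r) /ₘ Qi) * Qo with hBdef
  refine ⟨B.eval b / Qo.eval b, (P * r) %ₘ Qi, B - C (B.eval b / Qo.eval b) * Qo,
    degree_modByMonic_lt _ hm, ?_, ?_⟩
  · rw [eval_sub, eval_mul, eval_C]
    field_simp
    ring
  · have h1 : (P * r) %ₘ Qi + Qi * ((P * r) /ₘ Qi) = P * r := modByMonic_add_div _ _
    have h2 : P = P * (s * Qi + r * Qo) := by rw [hsr, mul_one]
    have h3 : P = (P * r) %ₘ Qi * Qo + B * Qi := by
      calc P = P * (s * Qi + r * Qo) := h2
        _ = P * s * Qi + (P * r) * Qo := by ring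
        _ = P * s * Qi + ((P * r) %ₘ Qi + Qi * ((P * r) /ₘ Qi)) * Qo := by rw [h1]
        _ = (P * r) %ₘ Qi * Qo + B * Qi := by rw [hBdef]; ring
    calc P - C (B.eval b / Qo.eval b) * (Qi * Qo)
        = (P * r) %ₘ Qi * Qo + B * Qi - C (B.eval b / Qo.eval b) * (Qi * Qo) := by rw [← h3]
      _ = _ := by ring

theorem pr_monic (M : Multiset K) : (pr M).Monic := monic_multiset_prod_of_monic _ _
  (fun w _ => monic_X_sub_C w)

theorem pr_eval_ne (M : Multiset K) (a : K) (h : a ∉ M) : (pr M).eval a ≠ 0 := by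
  induction M using Multiset.induction_on with
  | empty => simp [pr]
  | cons w M ih =>
    have e : pr (w ::ₘ M) = (X - C w) * pr M := by simp [pr]
    rw [e, eval_mul]
    rw [Multiset.mem_cons, not_or] at h
    refine mul_ne_zero ?_ (ih h.2)
    rw [eval_sub, eval_X, eval_C]
    exact sub_ne_zero.2 h.1

theorem pr_coprime [IsAlgClosed K] (M M' : Multiset K) (h : ∀ a, a ∈ M → a ∉ M') (l : K)
    (hl : l ≠ 0) : IsCoprime (pr M) (C l * pr M') := by
  refine (isCoprime_iff_aeval_ne_zero_of_isAlgClosed (k := K) K _ _).2 fun a => ?_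
  by_cases ha : a ∈ M
  · right
    rw [coe_aeval_eq_eval, eval_mul, eval_C]
    exact mul_ne_zero hl (pr_eval_ne M' a (h a ha))
  · left
    rw [coe_aeval_eq_eval]
    exact pr_eval_ne M a ha

open Classical in
theorem main (hN : S_NPOL.{u}) (hG : S_GLAM.{u}) : S_LAU.{u} := by
  intro K _ _ _ g b
  -- the denominator
  have hQ0 : g.Q ≠ 0 := by
    intro h
    have h1 := g.cop
    rw [h, isCoprime_zero_right] at h1
    have h2 := natDegree_eq_zero_of_isUnit h1
    have h3 := g.deg_eq
    rw [h2, h, natDegree_zero] at h3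
    have := g.pos
    simp at h3
    omega
  have hN0 : ∀ c : K, g.P - C c * g.Q ≠ 0 := by
    intro c h
    have h1 : g.P = C c * g.Q := sub_eq_zero.1 h
    have h2 := g.cop
    rw [h1] at h2
    have h3 : IsUnit g.Q := isCoprime_self.1 (IsCoprime.of_mul_left_right h2)
    have h4 := natDegree_eq_zero_of_isUnit h3
    have h5 : g.P.natDegree = 0 := by
      rw [h1]
      exact Nat.le_zero.1 ((natDegree_C_mul_le _ _).trans h4.le)
    have h6 := g.deg_eq
    rw [h4, h5] at h6
    have := g.pos
    simp at h6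
    omega
  have hl0 : g.Q.leadingCoeff ≠ 0 := leadingCoeff_ne_zero.2 hQ0
  have hsplit : ∀ S : Finset K, g.Q = pr (g.Q.roots.filter (fun w => w ∈ S)) *
      (C g.Q.leadingCoeff * pr (g.Q.roots.filter (fun w => ¬ w ∈ S))) := by
    intro S
    have h1 : g.Q = C g.Q.leadingCoeff * pr g.Q.roots :=
      (IsAlgClosed.splits g.Q).eq_prod_roots
    have h2 : pr g.Q.roots = pr (g.Q.roots.filter (fun w => w ∈ S)) *
        pr (g.Q.roots.filter (fun w => ¬ w ∈ S)) := by
      unfold pr
      rw [← Multiset.prod_add, ← Multiset.map_add, Multiset.filter_add_not]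
    calc g.Q = C g.Q.leadingCoeff * pr g.Q.roots := h1
      _ = _ := by rw [h2]; ring
  have hcut : ∀ S : Finset K, ∃ c : K, b ∉ g.Q.roots.filter (fun w => ¬ w ∈ S) →
      ∃ A G : K[X], A.degree < (pr (g.Q.roots.filter (fun w => w ∈ S))).degree ∧ G.eval b = 0 ∧
      g.P - C c * g.Q = A * (C g.Q.leadingCoeff * pr (g.Q.roots.filter (fun w => ¬ w ∈ S))) +
        G * pr (g.Q.roots.filter (fun w => w ∈ S)) := by
    intro S
    by_cases hb : b ∈ g.Q.roots.filter (fun w => ¬ w ∈ S)
    · exact ⟨0, fun h => absurd hb h⟩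
    · obtain ⟨c, A, G, h1, h2, h3⟩ := cut g.P (pr (g.Q.roots.filter (fun w => w ∈ S)))
        (C g.Q.leadingCoeff * pr (g.Q.roots.filter (fun w => ¬ w ∈ S))) b
        (pr_coprime _ _ (by
          intro a ha ha'
          exact (Multiset.mem_filter.1 ha').2 (Multiset.mem_filter.1 ha).2) _ hl0)
        (pr_monic _) (by
          rw [eval_mul, eval_C]
          exact mul_ne_zero hl0 (pr_eval_ne _ _ hb))
      rw [← hsplit S] at h3
      exact ⟨c, fun _ => ⟨A, G, h1, h2, h3⟩⟩
  choose c hc using hcut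
  refine ⟨(g.Q.roots.toFinset ∪ (g.Q.roots.toFinset.powerset.biUnion
    fun S => (g.P - C (c S) * g.Q).roots.toFinset)).image (fun w => ‖w - b‖), ?_⟩
  intro u v hu huv hB
  have hB1 : ∀ w ∈ g.Q.roots, ¬ (u < ‖w - b‖ ∧ ‖w - b‖ < v) := by
    intro w hw
    refine hB _ (Finset.mem_image_of_mem _ (Finset.mem_union_left _ ?_))
    exact Multiset.mem_toFinset.2 hw
  refine ⟨fun w hw => hB1 w ((mem_roots hQ0).2 hw), ?_⟩
  set S : Finset K := g.Q.roots.toFinset.filter (fun w => ‖w - b‖ ≤ u) with hS
  have hB2 : ∀ w ∈ (g.P - C (c S) * g.Q).roots, ¬ (u < ‖w - b‖ ∧ ‖w - b‖ < v) := by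
    intro w hw
    refine hB _ (Finset.mem_image_of_mem _ (Finset.mem_union_right _ ?_))
    rw [Finset.mem_biUnion]
    exact ⟨S, Finset.mem_powerset.2 (Finset.filter_subset _ _), Multiset.mem_toFinset.2 hw⟩
  obtain ⟨m1, κ1, hκ1, hm1⟩ := mono_piece hN b _ (hN0 (c S)) hu huv hB2
  obtain ⟨m2, κ2, hκ2, hm2⟩ := mono_piece hN b _ hQ0 hu huv hB1
  refine ⟨c S, κ1 / κ2, (m1 : ℤ) - m2, by positivity, ?_, ?_⟩
  · -- the exponent is not zero
    intro he
    have he' : m1 = m2 := by omega
    subst he'
    set Mi := g.Q.roots.filter (fun w => w ∈ S) with hMi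
    set Mo := g.Q.roots.filter (fun w => ¬ w ∈ S) with hMo
    have hin : ∀ w ∈ Mi, ‖b - w‖ ≤ u := by
      intro w hw
      have := (Finset.mem_filter.1 (Multiset.mem_filter.1 hw).2).2
      rwa [norm_sub_rev]
    have hout : ∀ w ∈ Mo, v ≤ ‖b - w‖ := by
      intro w hw
      obtain ⟨h1, h2⟩ := Multiset.mem_filter.1 hw
      have h3 := hB1 w h1
      have h4 : u < ‖w - b‖ := by
        by_contra h4
        exact h2 (Finset.mem_filter.2 ⟨Multiset.mem_toFinset.2 h1, not_lt.1 h4⟩)
      rw [norm_sub_rev]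
      by_contra h5
      exact h3 ⟨h4, not_le.1 h5⟩
    have hbo : b ∉ Mo := by
      intro h
      have := hout b h
      rw [sub_self, norm_zero] at this
      linarith
    obtain ⟨A, G, hA, hGb, hAG⟩ := hc S hbo
    set n := Multiset.card Mi with hn
    have hdeg : (pr Mi).degree = n := by
      have h1 : (pr Mi).natDegree = n := by
        rw [hn, pr, natDegree_multiset_prod_X_sub_C_eq_card]
      rw [degree_eq_natDegree (pr_monic Mi).ne_zero, h1]
    -- norms of the factors
    set κo : ℝ := ‖g.Q.leadingCoeff‖ * (Mo.map (fun w => ‖b - w‖)).prod with hκo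
    have hgi : ∀ t, u < t → t < v → gn b t (pr Mi) = t ^ n := by
      intro t h1 h2
      exact gn_pr_in hG b (by linarith) Mi (fun w hw => (hin w hw).trans h1.le)
    have hgo : ∀ t, u < t → t < v → gn b t (C g.Q.leadingCoeff * pr Mo) = κo := by
      intro t h1 h2
      rw [gn_mul b (by linarith), gn_C b (by linarith),
        gn_pr_out hG b (by linarith) Mo (fun w hw => h2.le.trans (hout w hw))]
    have hκopos : 0 < κo := by
      have hm : u < (u + v) / 2 ∧ (u + v) / 2 < v := ⟨by linarith, by linarith⟩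
      have h1 : gn b ((u + v) / 2) g.Q = κ2 * ((u + v) / 2) ^ m1 := hm2 _ hm.1 hm.2
      rw [hsplit S, gn_mul b (by linarith), hgi _ hm.1 hm.2, hgo _ hm.1 hm.2] at h1
      have h2 : 0 < κ2 * ((u + v) / 2) ^ m1 := by
        have : 0 < (u + v) / 2 := by linarith
        positivity
      have h3 : 0 < ((u + v) / 2) ^ n := by
        have : 0 < (u + v) / 2 := by linarith
        positivity
      rw [← h1] at h2
      exact (pos_iff_pos_of_mul_pos h2).1 h3
    -- the ratio is constant
    set κ := κ1 / κ2 with hκ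
    have hκpos : 0 < κ := by positivity
    have hcon : ∀ t, u < t → t < v →
        gn b t (g.P - C (c S) * g.Q) = κ * (t ^ n * κo) := by
      intro t h1 h2
      have h3 : gn b t g.Q = t ^ n * κo := by
        have e := hsplit S
        calc gn b t g.Q = gn b t (pr Mi * (C g.Q.leadingCoeff * pr Mo)) := by rw [← e]
          _ = t ^ n * κo := by rw [gn_mul b (by linarith), hgi t h1 h2, hgo t h1 h2]
      rw [← h3, hm1 t h1 h2, hm2 t h1 h2, hκ]
      field_simp
    have h1 : ∀ t, u < t → t < v → gn b t (A * (C g.Q.leadingCoeff * pr Mo)) = gn b t A * κo := by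
      intro t h1 h2
      rw [gn_mul b (by linarith), hgo t h1 h2]
    have h2 : ∀ t, u < t → t < v → gn b t (G * pr Mi) = gn b t G * t ^ n := by
      intro t h1 h2
      rw [gn_mul b (by linarith), hgi t h1 h2]
    have gnz : ∀ t, 0 < t → gn b t (0 : K[X]) = 0 := by
      intro t ht
      have := gn_C b ht (0 : K)
      rwa [C_0, norm_zero] at this
    -- the three exceptional sets
    have s1 : {t | u < t ∧ t < v ∧ gn b t A = κ * t ^ n}.Subsingleton := by
      intro s hs t ht
      by_contra hne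
      have hA0 : A ≠ 0 := by
        intro h0
        have := hs.2.2
        rw [h0, gnz s (by linarith [hs.1])] at this
        have hsp : 0 < s := by linarith [hs.1]
        have : 0 < κ * s ^ n := by positivity
        linarith
      have hAn : A.natDegree < n := by
        rw [hdeg] at hA
        exact (natDegree_lt_iff_degree_lt hA0).2 hA
      rcases lt_or_gt_of_ne hne with h | h
      · have := anti hN b A hA0 n hAn (s := s) (t := t) (by linarith [hs.1]) h
        rw [hs.2.2, ht.2.2] at this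
        linarith
      · have := anti hN b A hA0 n hAn (s := t) (t := s) (by linarith [ht.1]) h
        rw [hs.2.2, ht.2.2] at this
        linarith
    have s2 : {t | u < t ∧ t < v ∧ gn b t G = κ * κo}.Subsingleton := by
      intro s hs t ht
      by_contra hne
      have hG0 : G ≠ 0 := by
        intro h0
        have := hs.2.2
        rw [h0, gnz s (by linarith [hs.1])] at this
        have : 0 < κ * κo := by positivity
        linarith
      rcases lt_or_gt_of_ne hne with h | h
      · have := mono hN b G hG0 hGb (s := s) (t := t) (by linarith [hs.1]) h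
        rw [hs.2.2, ht.2.2] at this
        linarith
      · have := mono hN b G hG0 hGb (s := t) (t := s) (by linarith [ht.1]) h
        rw [hs.2.2, ht.2.2] at this
        linarith
    have s3 : {t | u < t ∧ t < v ∧ gn b t A * κo = gn b t G * t ^ n}.Subsingleton := by
      have aux : ∀ s t : ℝ, u < s → s < v → u < t → t < v → s < t →
          gn b s A * κo = gn b s G * s ^ n → gn b t A * κo = gn b t G * t ^ n → False := by
        intro s t hs1 hs2 ht1 ht2 hst es et
        have hsp : 0 < s := by linarith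
        have htp : 0 < t := by linarith
        have hsn : 0 < s ^ n := by positivity
        have htn : 0 < t ^ n := by positivity
        by_cases hA0 : A = 0
        · by_cases hG0 : G = 0
          · apply hN0 (c S)
            rw [hAG, hA0, hG0]
            ring
          · rw [hA0, gnz s hsp, zero_mul] at es
            have := (hN K G b s hG0 hsp).1
            have : 0 < gn b s G * s ^ n := by positivity
            linarith
        · have hAn : A.natDegree < n := by
            rw [hdeg] at hA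
            exact (natDegree_lt_iff_degree_lt hA0).2 hA
          have ha := anti hN b A hA0 n hAn hsp hst
          have hg : gn b s G ≤ gn b t G := by
            by_cases hG0 : G = 0
            · rw [hG0, gnz s hsp, gnz t htp]
            · exact (mono hN b G hG0 hGb hsp hst).le
          -- gn t A * s^n * κo < gn s A * t^n * κo = gn s G s^n t^n <= gn t G s^n t^n = gn t A κo s^n
          have e1 : gn b t A * s ^ n * κo < gn b s A * t ^ n * κo :=
            mul_lt_mul_of_pos_right ha hκopos
          have e2 : gn b s A * t ^ n * κo = gn b s G * (s ^ n * t ^ n) := by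
            calc gn b s A * t ^ n * κo = (gn b s A * κo) * t ^ n := by ring
              _ = _ := by rw [es]; ring
          have e3 : gn b t A * s ^ n * κo = gn b t G * (s ^ n * t ^ n) := by
            calc gn b t A * s ^ n * κo = (gn b t A * κo) * s ^ n := by ring
              _ = _ := by rw [et]; ring
          have e4 : gn b s G * (s ^ n * t ^ n) ≤ gn b t G * (s ^ n * t ^ n) :=
            mul_le_mul_of_nonneg_right hg (by positivity)
          linarith
      intro s hs t ht
      by_contra hne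
      rcases lt_or_gt_of_ne hne with h | h
      · exact aux s t hs.1 hs.2.1 ht.1 ht.2.1 h hs.2.2 ht.2.2
      · exact aux t s ht.1 ht.2.1 hs.1 hs.2.1 h ht.2.2 hs.2.2
    -- they cover the interval
    have hcov : Set.Ioo u v ⊆ ({t | u < t ∧ t < v ∧ gn b t A = κ * t ^ n} ∪
        {t | u < t ∧ t < v ∧ gn b t G = κ * κo}) ∪
        {t | u < t ∧ t < v ∧ gn b t A * κo = gn b t G * t ^ n} := by
      rintro t ⟨ht1, ht2⟩
      have htp : 0 < t := by linarith
      have htn : 0 < t ^ n := by positivity
      by_cases h3 : gn b t A * κo = gn b t G * t ^ n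
      · exact Or.inr ⟨ht1, ht2, h3⟩
      · left
        have h4 := hcon t ht1 ht2
        rw [hAG] at h4
        rcases gn_add_eq b htp (A * (C g.Q.leadingCoeff * pr Mo)) (G * pr Mi)
          (by rw [h1 t ht1 ht2, h2 t ht1 ht2]; exact h3) with h5 | h5
        · left
          refine ⟨ht1, ht2, ?_⟩
          rw [h5, h1 t ht1 ht2] at h4
          have : gn b t A * κo = (κ * t ^ n) * κo := by rw [h4]; ring
          exact mul_right_cancel₀ hκopos.ne' this
        · right
          refine ⟨ht1, ht2, ?_⟩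
          rw [h5, h2 t ht1 ht2] at h4
          have : gn b t G * t ^ n = (κ * κo) * t ^ n := by rw [h4]; ring
          exact mul_right_cancel₀ htn.ne' this
    exact (Set.Ioo_infinite huv) (((s1.finite.union s2.finite).union s3.finite).subset hcov)
  · intro t h1 h2
    have htp : 0 < t := by linarith
    rw [hm1 t h1 h2, hm2 t h1 h2, zpow_sub₀ htp.ne', zpow_natCast, zpow_natCast]
    field_simp

end Pool.Agent.W639.BE.Lau
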